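import Pool.Agent.T6.H22.ArrScheme

/-!
# Finite generation of cycle-complex cohomology and complements of arrangements

The complements in affine spaces over `ℤ` of finite unions of hypersurfaces `x_i = 1`,
`x_i + x_j = x_k`, `x_i x_j = x_k` generate all arithmetic schemes with respect to closed
subschemes and open complements. Hence the finite generation of étale cycle-complex
cohomology in all negative weights reduces to these smooth schemes and to the weight `-1`.
-/

set_option autoImplicit false

open CategoryTheory AlgebraicGeometry Pool.Agent.T6.H22.Arr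

namespace Pool.Agent.Results.MP_e93a6a_ag.ArrangementComplements

/-- The complement in the affine space `𝔸^N` over `ℤ` of the hypersurface `f = 0`. -/
noncomputable def complement {N : ℕ} (f : MvPolynomial (Fin N) ℤ) : Scheme.{0} :=
  Spec (CommRingCat.of (Localization.Away f))

/-- Groups `H i n X` (thought of as `H^i(X_et, ℤ^c(n))`) for all arithmetic schemes `X` and
weights `n < 0`, with the known properties: invariance under isomorphisms, the localization
sequence of a closed subscheme and its open complement, and homotopy invariance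
`H^i(𝔸^1_X, ℤ^c(n)) ≅ H^{i+2}(X, ℤ^c(n-1))`. -/
structure CycleCohomology where
  H : ℤ → ℤ → Scheme.{0} → Type
  grp : ∀ i n X, AddCommGroup (H i n X)
  iso : ∀ i n X Y, n < 0 → IsArith X → Nonempty (X ≅ Y) → Nonempty (H i n X ≃+ H i n Y)
  localization : ∀ (n : ℤ) (X Z : Scheme.{0}) (i : Z ⟶ X) (U : X.Opens), n < 0 → IsArith X →
    IsClosedImmersion i → Set.range i = (U : Set X)ᶜ →
    ∃ (a : ∀ j, H j n Z →+ H j n X) (b : ∀ j, H j n X →+ H j n U)
      (c : ∀ j, H j n U →+ H (j + 1) n Z),
      (∀ j, Function.Exact (a j) (b j)) ∧ (∀ j, Function.Exact (b j) (c j)) ∧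
      ∀ j, Function.Exact (c j) (a (j + 1))
  homotopy : ∀ (i n : ℤ) (X : Scheme.{0}), n < 0 → IsArith X →
    Nonempty (H i n 𝔸(Fin 1; X) ≃+ H (i + 2) (n - 1) X)

attribute [instance] CycleCohomology.grp

/-- finite generation in the weight `n` -/
def FG (T : CycleCohomology) (n : ℤ) (X : Scheme.{0}) : Prop := ∀ i, Module.Finite ℤ (T.H i n X)

theorem finite_mid {A B C : Type} [AddCommGroup A] [AddCommGroup B] [AddCommGroup C]
    (f : A →+ B) (g : B →+ C) (h : Function.Exact f g) (hA : Module.Finite ℤ A)
    (hC : Module.Finite ℤ C) : Module.Finite ℤ B := by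
  have h1 : IsNoetherian ℤ A := inferInstance
  have h2 : IsNoetherian ℤ C := inferInstance
  have h3 : IsNoetherian ℤ B := isNoetherian_of_range_eq_ker f.toIntLinearMap g.toIntLinearMap (by
    ext x
    rw [LinearMap.mem_ker, LinearMap.mem_range]
    exact (h x).symm)
  infer_instance

theorem finite_equiv {A B : Type} [AddCommGroup A] [AddCommGroup B] (e : A ≃+ B)
    (hA : Module.Finite ℤ A) : Module.Finite ℤ B :=
  Module.Finite.equiv e.toIntLinearEquiv

theorem twoOfThree (T : CycleCohomology) {n : ℤ} (hn : n < 0) :
    TwoOfThree fun X => IsArith X → FG T n X where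
  iso X Y e h hY i := by
    have hX : IsArith X := hY.closed e.some.hom
    exact finite_equiv (T.iso i n X Y hn hX e).some (h hX i)
  closed X Z i U hX hi hr hPX hPU hZ j := by
    obtain ⟨a, b, c, h1, h2, h3⟩ := T.localization n X Z i U hn hX hi hr
    obtain ⟨k, rfl⟩ : ∃ k, j = k + 1 := ⟨j - 1, by ring⟩
    exact finite_mid (c k) (a (k + 1)) (h3 k) (hPU (hX.opens U) k) (hPX hX (k + 1))
  compl X Z i U hX hi hr hPX hPZ hU j := by
    obtain ⟨a, b, c, h1, h2, h3⟩ := T.localization n X Z i U hn hX hi hr
    exact finite_mid (b j) (c j) (h2 j) (hPX hX j) (hPZ (hX.closed i) (j + 1))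
  total X Z i U hX hi hr hPZ hPU _ j := by
    obtain ⟨a, b, c, h1, h2, h3⟩ := T.localization n X Z i U hn hX hi hr
    exact finite_mid (a j) (b j) (h1 j) (hPZ (hX.closed i) j) (hPU (hX.opens U) j)

theorem arith_line {X : Scheme.{0}} (hX : IsArith X) : IsArith 𝔸(Fin 1; X) := by
  obtain ⟨f, h1, h2, h3⟩ := hX
  have h4 : LocallyOfFiniteType (𝔸(Fin 1; X) ↘ X) := inferInstance
  exact ⟨(𝔸(Fin 1; X) ↘ X) ≫ f, inferInstance, inferInstance, inferInstance⟩

theorem weights (T : CycleCohomology) (h : ∀ X, IsArith X → FG T (-1) X) :
    ∀ (r : ℕ) (X : Scheme.{0}), IsArith X → FG T (-1 - r) X := by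
  intro r
  induction r with
  | zero => intro X hX; simpa using h X hX
  | succ r ih =>
    intro X hX i
    obtain ⟨e⟩ := T.homotopy (i - 2) (-1 - r) X (by omega) hX
    have h1 := finite_equiv e (ih _ (arith_line hX) (i - 2))
    have h2 : (-1 - (r : ℤ) - 1) = -1 - ((r + 1 : ℕ) : ℤ) := by push_cast; ring
    have h3 : i - 2 + 2 = i := by ring
    rw [h2, h3] at h1
    exact h1

theorem complement_arith {N : ℕ} (f : MvPolynomial (Fin N) ℤ) : IsArith (complement f) := by
  have h := (IsArith.spec (FT.poly N)).opens (bop f)
  have e : (bop f : (Spec (CommRingCat.of (MvPolynomial (Fin N) ℤ))).Opens).toScheme ≅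
    complement f := basicOpenIsoSpecAway (R := CommRingCat.of (MvPolynomial (Fin N) ℤ)) f
  exact h.closed e.inv

/-- **Reduction to complements of arrangements.** The products `f ∈ arr N` of polynomials
`x_i - 1`, `x_i + x_j - x_k`, `x_i x_j - x_k` in `N` variables are the equations of the
arrangements.

(a) Let `P` be a property of arithmetic schemes which is invariant under isomorphisms and has the
two out of three property for closed subschemes and their open complements. If `P` holds for the
complements in `𝔸^N` over `ℤ` of all arrangements, then it holds for all arithmetic schemes.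

(b) For a theory `T` with the known properties of `H^i(X_et, ℤ^c(n))` (`CycleCohomology`), the
groups are finitely generated for all arithmetic schemes `X`, all weights `n < 0` and all `i`, if
and only if they are finitely generated for the complements of all arrangements in the single
weight `n = -1`. -/
theorem result :
    (∀ P : Scheme.{0} → Prop, TwoOfThree P →
      (∀ (N : ℕ) (f : MvPolynomial (Fin N) ℤ), f ∈ arr N → P (complement f)) →
      ∀ X, IsArith X → P X) ∧
    ∀ T : CycleCohomology,
      (∀ X, IsArith X → ∀ n < 0, ∀ i, Module.Finite ℤ (T.H i n X)) ↔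
      ∀ (N : ℕ) (f : MvPolynomial (Fin N) ℤ), f ∈ arr N →
        ∀ i, Module.Finite ℤ (T.H i (-1) (complement f)) := by
  refine ⟨fun P hP h X hX => all_schemes hP h X hX, fun T => ⟨?_, ?_⟩⟩
  · intro h N f _ i
    exact h _ (complement_arith f) (-1) (by norm_num) i
  · intro h X hX n hn i
    have h1 : ∀ Y, IsArith Y → FG T (-1) Y := fun Y hY =>
      all_schemes (twoOfThree T (n := -1) (by norm_num)) (fun N f hf _ i => h N f hf i) Y hY hY
    obtain ⟨r, hr⟩ : ∃ r : ℕ, n = -1 - r := ⟨(-1 - n).toNat, by omega⟩
    rw [hr]
    exact weights T h1 r X hX i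

end Pool.Agent.Results.MP_e93a6a_ag.ArrangementComplements
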