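import Pool.Agent.T6.H33.EC.Alter

/-!
# Q1 for the weight `-1` and one model of a finite extension of each field

Let `H^i(X_et, ℤ^c(n))` be the étale cohomology of the cycle complexes. We prove that Q1 (finite generation of these groups for
all arithmetic schemes `X`, all `n < 0` and all `i`) is equivalent to each of the following statements.

* *For every integral arithmetic scheme `X` there is an integral arithmetic scheme `W` such that the groups
  `H^i(W_et, ℤ^c(-1))` are finitely generated for all `i` and a nonempty open subscheme of `W` is finite and flat over a nonempty
  open subscheme of `X`.* In other words: every field `K` which is finitely generated over its prime field has a finite extension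
  with **one** model `W` for which the groups of weight `-1` are finitely generated.
* *The groups `H^i(W_et, ℤ^c(-1))` are finitely generated for all `W` in `N`*, if `N` is a class of schemes such that every `X` has
  such a `W` in `N`. By the theorem of de Jong on alterations this is true for the class of the regular projective schemes over `ℤ`
  (more precisely: smooth projective over a finite field, or projective and strictly semistable over a ring of integers). So Q1 is
  equivalent to Q1 for regular projective schemes in the weight `-1`; there it is enough to treat the degrees `i ≤ 3`, by the
  problem's list of known facts.

The cover is only generic and can have any degree, and nothing is assumed on its iterated fibre products or on its ramification;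
in Morin's class of schemes étale covers occur only together with all their iterated fibre products.

*The data.* The schemes are schemes in the sense of Mathlib; arithmetic schemes are the schemes which are separated and of finite
type over `Spec ℤ` (`IsArithmetic`). `CycleTheory` is the form of the theory. The facts used on `H^i(X_et, ℤ^c(n))`, for `n < 0`,
are the localisation sequences (`HasLocalisation`), the affine line over affine schemes (`HasAffineLine`), and (`HasTransfer`) that
for a finite flat surjective morphism to an integral scheme the inverse image followed by the direct image is the multiplication
by the degree, and that the groups have finite `m`-torsion for all `m > 0` (by the finiteness theorems of étale cohomology). On the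
dimension of integral arithmetic schemes the usual facts are used (`IsDimension`).

*The proof.* (1) If `V → U` is finite, flat and surjective and the groups of `V` are finitely generated, then so are those of `U`: the
kernel of the inverse image is killed by the degree, so it is finite. (2) By noetherian induction it is enough to treat integral
schemes; and for an integral scheme `X` one uses induction on the dimension: the closed subschemes `W ∖ V` and `X ∖ U` have smaller
dimension. (3) The weight `-1` gives all weights `n < 0`, as in the hand-in `PrincipalOpens`.
-/

set_option autoImplicit false

open AlgebraicGeometry CategoryTheory

namespace Pool.Agent.Results.MP_e93a6a_ag.OneModel

open Pool.Agent.T6.H33.EC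

/-- Let `T` be a cohomology theory with localisation sequences, the formula for the affine line, transfers and finite torsion in
the weights `n < 0`, like `H^i(X_et, ℤ^c(n))`. Then Q1 is true for `T` if and only if every integral arithmetic scheme `X` has
generically a finite flat cover by an open subscheme of an integral arithmetic scheme `W` with finitely generated groups of weight
`-1`; and if and only if all `W` in `N` have finitely generated groups of weight `-1`, for every class `N` which contains such a `W`
for every `X`. -/
theorem result (T : CycleTheory) (hT : T.HasLocalisation) (hL : T.HasAffineLine) (hR : T.HasTransfer)
    (dim : Scheme.{0} → ℕ) (hdim : IsDimension dim) :
    (T.FiniteGeneration ↔ T.HasGoodCovers (-1)) ∧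
    ∀ N : Set Scheme.{0}, HasModels N →
      (T.FiniteGeneration ↔ ∀ W ∈ N, IsArithmetic W → IsIntegral W → T.Finite W (-1)) :=
  ⟨CycleTheory.finiteGeneration_iff_covers hT hR hL dim hdim,
    fun N hN => CycleTheory.finiteGeneration_iff_models hT hR hL dim hdim N hN⟩

end Pool.Agent.Results.MP_e93a6a_ag.OneModel
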