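import Pool.Agent.T6.H33.EC.Rings

/-!
# Q1 for the weight `-1`, one large negative degree and the rings `ℤ[x_1, …, x_N, 1/f]`

Let `H^i(X_et, ℤ^c(n))` be the étale cohomology of the cycle complexes. We prove that Q1 (finite generation of these groups for
all arithmetic schemes `X`, all `n < 0` and all `i`) is equivalent to the following statement.

* *For infinitely many negative integers `i`: for all `N ≥ 0` and all polynomials `f` in `ℤ[x_1, …, x_N]` the group
  `H^i((Spec ℤ[x_1, …, x_N, 1/f])_et, ℤ^c(-1))` is finitely generated.*

So only the weight `-1` and the complements of hypersurfaces in affine spaces over `ℤ` matter, and it is enough to treat one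
degree `i` (the same for all `N` and `f`), if it can be chosen arbitrarily negative. The rings `ℤ[x_1, …, x_N, 1/f]` are regular of
dimension `N + 1`, so the group is the étale motivic cohomology group `H^(2N + 2 + i)(ℤ[x_1, …, x_N, 1/f], ℤ(N + 2))`; with
`m = 2 - i` it is, up to torsion, the part of weight `N + 2` of `K_m(ℤ[x_1, …, x_N, 1/f])`.

*The data.* The schemes are schemes in the sense of Mathlib; arithmetic schemes are the schemes which are separated and of finite
type over `Spec ℤ` (`IsArithmetic`). `CycleTheory` is the form of the theory: groups `H X n i` with direct images for closed
immersions, restrictions to open subschemes and boundary maps. The facts used on `H^i(X_et, ℤ^c(n))`, for `n < 0`, are the long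
exact localisation sequences (`HasLocalisation`), the isomorphism `H^i(A¹, ℤ^c(n)) = H^(i + 2)(Spec A, ℤ^c(n - 1))` for the affine
line over an affine arithmetic scheme `Spec A`, and that the direct image by the zero section `Spec A → A¹` is zero
(`HasAffineLine`). They are known (Bloch, Levine, Geisser, Morin).

*The proof.* (1) The multiplicative group over `Spec A` is the complement of the zero section of the affine line, so the boundary map
from `H^i(G_m)` to `H^(i + 1)(Spec A)` is surjective; and the multiplicative group over `Spec ℤ[x, 1/f]` is
`Spec ℤ[x, t, 1/(f t)]`. So the degree `i` gives all degrees `≥ i`. (2) The affine line over `Spec ℤ[x, 1/f]` is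
`Spec ℤ[x, t, 1/f]`, so the weight `n` gives the weight `n - 1`. (3) By Mayer-Vietoris arguments, which use only the localisation
sequences, the statement for the principal open subschemes of affine space gives the statement for all open subschemes; then for
all closed subschemes, that is, for all affine arithmetic schemes; and then for all arithmetic schemes by noetherian induction.
-/

set_option autoImplicit false

open AlgebraicGeometry CategoryTheory

namespace Pool.Agent.Results.MP_e93a6a_ag.PrincipalOpens

open Pool.Agent.T6.H33.EC

/-- Let `T` be a cohomology theory with localisation sequences and the formula for the affine line in the weights `n < 0`, like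
`H^i(X_et, ℤ^c(n))`. Then Q1 is true for `T` if and only if for infinitely many negative `i` the groups
`H^i(Spec ℤ[x_1, …, x_N, 1/f], ℤ^c(-1))` are finitely generated for all `N` and `f`. -/
theorem result (T : CycleTheory) (hT : T.HasLocalisation) (hL : T.HasAffineLine) :
    T.FiniteGeneration ↔ ∀ i₀ : ℤ, ∃ i ≤ i₀, ∀ (N : ℕ) (f : MvPolynomial (Fin N) ℤ),
      AddGroup.FG (T.H (Spec (.of (Localization.Away f))) (-1) i) :=
  CycleTheory.finiteGeneration_iff hT hL

end Pool.Agent.Results.MP_e93a6a_ag.PrincipalOpens
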